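import Mathlib

namespace Pool.Agent.Results.MP_df5386_co.Spread

open Finset Matrix

open Classical in
noncomputable def lap {n : ℕ} (E : Fin n → Fin n → Prop) : Matrix (Fin n) (Fin n) ℝ :=
  diagonal (fun i => (#{j | E i j} : ℝ)) - of fun i j => if E i j then 1 else 0

def W {n : ℕ} (E : Fin n → Fin n → Prop) : Set ℝ :=
  {w | ∃ x : Fin n → ℝ, ∑ i, x i = 0 ∧ ∑ i, x i ^ 2 = 1 ∧ w = x ⬝ᵥ lap E *ᵥ x}

noncomputable def spread {n : ℕ} (E : Fin n → Fin n → Prop) : ℝ := sSup (W E) - sInf (W E)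

open Classical in
theorem form {n : ℕ} (E : Fin n → Fin n → Prop) (x : Fin n → ℝ) :
    x ⬝ᵥ lap E *ᵥ x = ∑ i, ∑ j, if E i j then x i * (x i - x j) else 0 := by
  rw [lap, sub_mulVec, dotProduct]
  refine sum_congr rfl fun i _ => ?_
  rw [Pi.sub_apply, mulVec_diagonal, card_filter, mulVec, dotProduct]
  push_cast
  rw [sum_mul, ← sum_sub_distrib, mul_sum]
  exact sum_congr rfl fun j _ => by by_cases h : E i j <;> simp [h]

theorem bdd {n : ℕ} (E : Fin n → Fin n → Prop) (w : ℝ) (h : w ∈ W E) : |w| ≤ ∑ _i : Fin n, ∑ _j : Fin n, 2 := by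
  obtain ⟨x, -, h, rfl⟩ := h
  have (i : Fin n) : x i ^ 2 ≤ 1 := h ▸ single_le_sum (f := fun i => x i ^ 2)
    (fun _ _ => sq_nonneg _) (mem_univ i)
  rw [form]
  refine (abs_sum_le_sum_abs _ _).trans (sum_le_sum fun i _ =>
    (abs_sum_le_sum_abs _ _).trans (sum_le_sum fun j _ => ?_))
  split_ifs
  · rw [abs_le]
    constructor <;> nlinarith [this i, this j, sq_nonneg (x i + x j), sq_nonneg (x i - x j)]
  · simp

theorem mem {n : ℕ} (E : Fin n → Fin n → Prop) (x : Fin n → ℝ) (h : ∑ i, x i = 0) (s : ℝ)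
    (hs : ∑ i, x i ^ 2 = s) (s0 : 0 < s) : (x ⬝ᵥ lap E *ᵥ x) / s ∈ W E := by
  have := Real.sq_sqrt s0.le
  have p := Real.sqrt_pos.2 s0
  refine ⟨(√s)⁻¹ • x, by simp [← mul_sum, h], ?_, ?_⟩
  · simp only [Pi.smul_apply, smul_eq_mul, mul_pow, ← mul_sum, hs, inv_pow, this]
    field_simp
  · rw [mulVec_smul, smul_dotProduct, dotProduct_smul, smul_smul, ← sq, inv_pow, this, smul_eq_mul]
    field_simp

def y {m : ℕ} : Option (Fin 4 × Fin m) → ℝ
  | none => 0
  | some p => ![1, 2, -1, -2] p.1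

def A {m : ℕ} : Option (Fin 4 × Fin m) → Option (Fin 4 × Fin m) → Prop
  | none, some _ => True
  | some p, some q => p.1 = 0 ∧ q.1 = 1 ∨ p.1 = 2 ∧ q.1 = 3
  | _, none => False

theorem result (C : ℝ) : ∃ n, 2 ≤ n ∧ ∃ E : Fin n → Fin n → Prop, (∀ i, ¬ E i i) ∧
    n + C < spread E := by
  obtain ⟨m, hm⟩ := exists_nat_gt (5 * |C| + 5)
  have m0 : (0 : ℝ) < m := by linarith [abs_nonneg C]
  have m1 : 0 < m := by exact_mod_cast m0
  let e : Fin (4 * m + 1) ≃ Option (Fin 4 × Fin m) := Fintype.equivOfCardEq (by simp)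
  refine ⟨4 * m + 1, by omega, fun i j => A (e i) (e j), fun i => ?_, ?_⟩
  · rcases e i with _ | p <;> simp only [A] <;> grind
  have b := fun w h => abs_le.1 (bdd (fun i j => A (e i) (e j)) w h)
  have s2 (f : Option (Fin 4 × Fin m) → Option (Fin 4 × Fin m) → ℝ) :
      ∑ i, ∑ j, f (e i) (e j) = ∑ i, ∑ j, f i j := by
    rw [← e.sum_comp]
    exact sum_congr rfl fun i _ => e.sum_comp _
  have h1 := le_csSup ⟨_, fun w h => (b w h).2⟩ (mem _ (fun i => (e i).elim (4 * m) fun _ => -1)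
    (by rw [e.sum_comp fun i => i.elim (4 * m : ℝ) fun _ => -1]; simp) (4 * m * (4 * m + 1))
    (by rw [e.sum_comp fun i => (i.elim (4 * m : ℝ) fun _ => -1) ^ 2]; simp; ring) (by positivity))
  have h2 := csInf_le ⟨_, fun w h => (b w h).1⟩ (mem _ (fun i => y (e i))
    (by rw [e.sum_comp y]; simp [y, Fintype.sum_prod_type, Fin.sum_univ_four]) (10 * m)
    (by rw [e.sum_comp (y · ^ 2)]; simp [y, Fintype.sum_prod_type, Fin.sum_univ_four]; ring)
    (by positivity))
  classical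
  rw [form, s2 fun i j => if A i j then (i.elim (4 * m : ℝ) fun _ => -1) *
    ((i.elim (4 * m : ℝ) fun _ => -1) - (j.elim (4 * m : ℝ) fun _ => -1)) else 0] at h1
  rw [form, s2 fun i j => if A i j then y i * (y i - y j) else 0] at h2
  rw [spread]
  generalize W _ = S at *
  simp [A, y, Fintype.sum_prod_type, Fin.sum_univ_four] at h1 h2
  rw [show (_ / (4 * m * (4 * m + 1)) : ℝ) = 4 * m from ?_] at h1
  · rw [show (_ / (10 * m) : ℝ) = - m / 5 from ?_] at h2
    · push_cast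
      linarith [le_abs_self C]
    · field_simp
      ring
  · field_simp
    ring

end Pool.Agent.Results.MP_df5386_co.Spread
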